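import Pool.Agent.Lib.MP_524519_ag.DU5.AB.Iface

/-! # Module ORD: the order after `D^(p-1)` and `d^(p-1)/du^(p-1)` -/

set_option autoImplicit false

namespace Pool.Agent.DU5.AB

open MvPowerSeries Pool.Agent.DU5

theorem ord : ORDStatement := by
  intro p _ k K _ _ _ _ D n y hy
  obtain ⟨z, rfl⟩ := hy
  have h1 : (PowerSeries.X : PowerSeries K) ^ n * z =
      (PowerSeries.X ^ (n / p)) ^ p * (PowerSeries.X ^ (n % p) * z) := by
    rw [← mul_assoc, ← pow_mul, ← pow_add, mul_comm (n / p) p, Nat.div_add_mod]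
  rw [h1, TT_pow p (dd D), ← pow_mul, mul_comm (n / p) p]
  exact dvd_mul_right _ _

end Pool.Agent.DU5.AB
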